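import Pool.Agent.helper87.TR.Spec

/-! # Row tr:GM -/

namespace Pool.Agent.helper87.TR

open Polynomial Finset Module FP97
open Pool.Agent.helper97.FP

theorem GM_mem {P : ℂ[X]} {d : ℕ} (h : P.natDegree ≤ d) : P ∈ degreeLT ℂ (d + 1) := by
  rw [mem_degreeLT]
  exact (degree_le_of_natDegree_le h).trans_lt (by exact_mod_cast Nat.lt_succ_self d)

theorem GM_dvd {ι : Type} (s : Finset ι) (a : ι → ℂ) (ha : Set.InjOn a s) (G : ℂ[X])
    (h : ∀ k ∈ s, G.eval (a k) = 0) : (∏ k ∈ s, (X - C (a k))) ∣ G := by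
  have := (prod_pow_dvd s a ha (fun _ => 1) G).mpr (fun k hk => by
    rw [pow_one, dvd_iff_isRoot, IsRoot.def]; exact h k hk)
  simpa only [pow_one] using this

theorem GM_deg {ι : Type} (s : Finset ι) (a : ι → ℂ) :
    (∏ k ∈ s, (X - C (a k))).natDegree = s.card ∧ (∏ k ∈ s, (X - C (a k))).Monic := by
  have h1 := natDegree_prod_pow s a (fun _ => 1)
  have h2 := monic_prod_pow s a (fun _ => 1)
  simp only [pow_one, sum_const, smul_eq_mul, mul_one] at h1 h2
  exact ⟨h1, h2⟩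

theorem GM_rho {p q ρ : ℂ[X]} {N : ℕ} (hpq : IsCoprime p q) (h1 : p * ρ ∈ degreeLT ℂ N)
    (h2 : q * ρ ∈ degreeLT ℂ N) : ρ ∈ degreeLT ℂ (N - max p.natDegree q.natDegree) := by
  by_cases hp : p = 0
  · have hq : q ≠ 0 := by
      rintro rfl
      rw [hp] at hpq
      exact not_isCoprime_zero_zero hpq
    rw [hp, natDegree_zero, Nat.zero_max]
    exact (mem_degreeLT_mul hq).mp h2
  · by_cases hq : q = 0
    · rw [hq, natDegree_zero, Nat.max_zero]
      exact (mem_degreeLT_mul hp).mp h1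
    · rcases le_total p.natDegree q.natDegree with h | h
      · rw [max_eq_right h]
        exact (mem_degreeLT_mul hq).mp h2
      · rw [max_eq_left h]
        exact (mem_degreeLT_mul hp).mp h1

open Classical in
theorem GM_exists {ι : Type} (a β : ι → ℂ) (L : Finset ι) (p q : ℂ[X]) (d : ℕ) (ha : Set.InjOn a L)
    (hpq : IsCoprime p q)
    (hd : d = max p.natDegree q.natDegree + (L.filter fun k => q.eval (a k) ≠ β k * p.eval (a k)).card)
    (h2 : 2 * d ≤ L.card) :
    ∃ P Q : ℂ[X], P ∈ degreeLT ℂ (L.card - d + 1) ∧ Q ∈ degreeLT ℂ (L.card - d + 1) ∧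
      (∀ k ∈ L, Q.eval (a k) = β k * P.eval (a k)) ∧ p * Q - q * P ≠ 0 := by
  set M := L.card - d with hM
  set e := max p.natDegree q.natDegree with he
  set NH := L.filter fun k => q.eval (a k) ≠ β k * p.eval (a k) with hNH
  set τ : ℂ[X] := ∏ k ∈ NH, (X - C (a k)) with hτ
  obtain ⟨hτd, hτm⟩ := GM_deg NH a
  rw [← hτ] at hτd hτm
  by_contra hcon
  push Not at hcon
  let f : (degreeLT ℂ (M + 1) × degreeLT ℂ (M + 1)) →ₗ[ℂ] (L → ℂ) :=
    { toFun := fun x k => (x.2 : ℂ[X]).eval (a k) - β k * (x.1 : ℂ[X]).eval (a k)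
      map_add' := fun x y => by
        funext k
        simp only [Prod.snd_add, Prod.fst_add, Submodule.coe_add, eval_add, Pi.add_apply]
        ring
      map_smul' := fun c x => by
        funext k
        simp only [Prod.smul_snd, Prod.smul_fst, Submodule.coe_smul, eval_smul, smul_eq_mul,
          RingHom.id_apply, Pi.smul_apply]
        ring }
  have hfd : FiniteDimensional ℂ (degreeLT ℂ (M + 1)) := (degreeLTEquiv ℂ (M + 1)).symm.finiteDimensional
  have hfd' : FiniteDimensional ℂ (degreeLT ℂ (M + 1 - e)) :=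
    (degreeLTEquiv ℂ (M + 1 - e)).symm.finiteDimensional
  have hfm : FiniteDimensional ℂ (mults τ (M + 1 - e)) :=
    Submodule.finiteDimensional_of_le (S₂ := degreeLT ℂ (M + 1 - e)) fun P hP => hP.1
  have hker : ∀ x : degreeLT ℂ (M + 1) × degreeLT ℂ (M + 1), x ∈ LinearMap.ker f →
      (∀ k ∈ L, (x.2 : ℂ[X]).eval (a k) = β k * (x.1 : ℂ[X]).eval (a k)) := by
    intro x hx k hk
    have := congrFun (LinearMap.mem_ker.mp hx) ⟨k, hk⟩
    exact sub_eq_zero.mp this
  obtain ⟨u, v, huv⟩ := hpq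
  have hpq : IsCoprime p q := ⟨u, v, huv⟩
  let R0 : (degreeLT ℂ (M + 1) × degreeLT ℂ (M + 1)) →ₗ[ℂ] ℂ[X] :=
    (LinearMap.mulLeft ℂ u) ∘ₗ (degreeLT ℂ (M + 1)).subtype ∘ₗ LinearMap.fst ℂ _ _ +
    (LinearMap.mulLeft ℂ v) ∘ₗ (degreeLT ℂ (M + 1)).subtype ∘ₗ LinearMap.snd ℂ _ _
  have hR0 : ∀ x, R0 x = u * (x.1 : ℂ[X]) + v * (x.2 : ℂ[X]) := fun x => rfl
  have hRp : ∀ x ∈ LinearMap.ker f, p * R0 x = (x.1 : ℂ[X]) ∧ q * R0 x = (x.2 : ℂ[X]) := by
    intro x hx
    have h0 := hcon x.1 x.2 x.1.2 x.2.2 (hker x hx)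
    rw [hR0]
    constructor
    · linear_combination (x.1 : ℂ[X]) * huv + v * h0
    · linear_combination (x.2 : ℂ[X]) * huv - u * h0
  have hmem : ∀ x : LinearMap.ker f, R0 (x : degreeLT ℂ (M + 1) × degreeLT ℂ (M + 1)) ∈ mults τ (M + 1 - e) := by
    rintro ⟨x, hx⟩
    obtain ⟨e1, e2⟩ := hRp x hx
    refine ⟨GM_rho hpq (by rw [e1]; exact x.1.2) (by rw [e2]; exact x.2.2), ?_⟩
    refine GM_dvd NH a (ha.mono (by intro k hk; exact (mem_filter.mp hk).1)) _ fun k hk => ?_
    obtain ⟨hk1, hk2⟩ := mem_filter.mp hk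
    have h3 := hker x hx k hk1
    rw [← e1, ← e2, eval_mul, eval_mul] at h3
    have h4 : (R0 x).eval (a k) * (q.eval (a k) - β k * p.eval (a k)) = 0 := by linear_combination h3
    exact (mul_eq_zero.mp h4).resolve_right (sub_ne_zero.mpr hk2)
  let R : LinearMap.ker f →ₗ[ℂ] mults τ (M + 1 - e) :=
    LinearMap.codRestrict _ (R0 ∘ₗ (LinearMap.ker f).subtype) hmem
  have hRinj : Function.Injective R := by
    intro x y hxy
    have h0 : R0 (x : degreeLT ℂ (M + 1) × degreeLT ℂ (M + 1)) = R0 (y : _) := by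
      have := congrArg (fun z : mults τ (M + 1 - e) => (z : ℂ[X])) hxy
      exact this
    obtain ⟨x1, x2⟩ := hRp x x.2
    obtain ⟨y1, y2⟩ := hRp y y.2
    refine Subtype.ext (Prod.ext (Subtype.ext ?_) (Subtype.ext ?_))
    · rw [← x1, ← y1, h0]
    · rw [← x2, ← y2, h0]
  have hle := LinearMap.finrank_le_finrank_of_injective hRinj
  rw [finrank_mults hτm.ne_zero, hτd] at hle
  have hrn := LinearMap.finrank_range_add_finrank_ker f
  rw [Module.finrank_prod, finrank_degreeLT] at hrn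
  have hr : finrank ℂ (LinearMap.range f) ≤ L.card := by
    have := Submodule.finrank_le (LinearMap.range f)
    rwa [Module.finrank_fintype_fun_eq_card, Fintype.card_coe] at this
  omega

theorem GM : GM_stmt := by
  classical
  intro ι a β L p q d ha hpq hd h2
  obtain ⟨P, Q, hP, hQ, hPQ, hne⟩ := GM_exists a β L p q d ha hpq (by rw [hd]) h2
  set τ : ℂ[X] := ∏ k ∈ L.filter fun k => q.eval (a k) ≠ β k * p.eval (a k), (X - C (a k)) with hτ
  set σ : ℂ[X] := ∏ k ∈ L.filter fun k => q.eval (a k) = β k * p.eval (a k), (X - C (a k)) with hσ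
  obtain ⟨hτd, hτm⟩ := GM_deg (L.filter fun k => q.eval (a k) ≠ β k * p.eval (a k)) a
  obtain ⟨hσd, hσm⟩ := GM_deg (L.filter fun k => q.eval (a k) = β k * p.eval (a k)) a
  rw [← hτ] at hτd hτm
  rw [← hσ] at hσd hσm
  have hprod : σ * τ = ∏ k ∈ L, (X - C (a k)) := by
    rw [hσ, hτ]
    exact prod_filter_mul_prod_filter_not L (fun k => q.eval (a k) = β k * p.eval (a k)) _
  have hcard : (L.filter fun k => q.eval (a k) = β k * p.eval (a k)).card +
      (L.filter fun k => q.eval (a k) ≠ β k * p.eval (a k)).card = L.card :=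
    card_filter_add_card_filter_not (s := L) (fun k => q.eval (a k) = β k * p.eval (a k))
  have hdvd : σ ∣ p * Q - q * P := by
    refine GM_dvd _ a (ha.mono (by intro k hk; exact (mem_filter.mp hk).1)) _ fun k hk => ?_
    obtain ⟨hk1, hk2⟩ := mem_filter.mp hk
    rw [eval_sub, eval_mul, eval_mul, hPQ k hk1, hk2]
    ring
  obtain ⟨c', hc'⟩ := hdvd
  have hc0 : c' ≠ 0 := by
    rintro rfl
    rw [mul_zero] at hc'
    exact hne hc'
  have hPd := natDegree_le_of_mem hP
  have hQd := natDegree_le_of_mem hQ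
  rw [Nat.add_sub_cancel] at hPd hQd
  have hWd : (p * Q - q * P).natDegree ≤ max p.natDegree q.natDegree + (L.card - d) := by
    refine (natDegree_sub_le _ _).trans (max_le ?_ ?_)
    · exact natDegree_mul_le_of_le (le_max_left _ _) hQd
    · exact natDegree_mul_le_of_le (le_max_right _ _) hPd
  have hcd : c'.natDegree = 0 := by
    rw [hc', natDegree_mul hσm.ne_zero hc0, hσd] at hWd
    omega
  obtain ⟨c, hc⟩ : ∃ c : ℂ, c' = C c := ⟨c'.coeff 0, eq_C_of_natDegree_eq_zero hcd⟩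
  have hcne : c ≠ 0 := by
    rintro rfl
    rw [hc, C_0] at hc0
    exact hc0 rfl
  refine ⟨C c⁻¹ * P, C c⁻¹ * Q, ?_⟩
  refine ⟨h2, ?_, ?_, ?_, ?_, ?_, ?_, ?_⟩
  · refine GM_mem ((natDegree_mul_le).trans ?_)
    rw [hτd, hd, add_comm]
    exact Nat.add_le_add_right (le_max_left _ _) _
  · refine GM_mem ((natDegree_mul_le).trans ?_)
    rw [hτd, hd, add_comm]
    exact Nat.add_le_add_right (le_max_right _ _) _
  · rw [C_mul']; exact Submodule.smul_mem _ _ hP
  · rw [C_mul']; exact Submodule.smul_mem _ _ hQ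
  · intro k hk
    by_cases hk2 : q.eval (a k) = β k * p.eval (a k)
    · rw [eval_mul, eval_mul, hk2]; ring
    · have h0 : τ.eval (a k) = 0 := by
        rw [hτ, eval_prod]
        refine prod_eq_zero (mem_filter.mpr ⟨hk, hk2⟩) ?_
        rw [eval_sub, eval_X, eval_C, sub_self]
      rw [eval_mul, eval_mul, h0]; ring
  · intro k hk
    rw [eval_mul, eval_mul, hPQ k hk, eval_C]; ring
  · have hC : (C c⁻¹ : ℂ[X]) * C c = 1 := by rw [← C_mul, inv_mul_cancel₀ hcne, C_1]
    rw [hc] at hc'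
    rw [← hprod]
    linear_combination (C c⁻¹ * τ) * hc' + (σ * τ) * hC

end Pool.Agent.helper87.TR
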