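import Pool.Agent.helper87.TR.Spec

/-! # Row tr:PO -/

namespace Pool.Agent.helper87.TR

open Polynomial Finset Module FP97
open Pool.Agent.helper97.FP

theorem PO (hHO : HO_stmt) : PO_stmt := by
  classical
  intro r Y hY
  obtain ⟨t, s, hg⟩ := exists_good Y
  have hcard : (Y.image (aff t s)).card = r := by
    rw [Finset.card_image_of_injOn, hY]
    intro P hP Q hQ h
    exact aff_inj (hg P hP) (hg Q hQ) h
  have hset : {z | ∃ P ∈ Y, aff t s P = z} = ((Y.image (aff t s) : Finset (ℂ × ℂ)) : Set (ℂ × ℂ)) := by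
    ext z; simp
  constructor
  · obtain ⟨h, n, S, e, w, h1, h2⟩ := hHO (Y.image (aff t s))
    rw [hcard] at h1
    refine ⟨h, n, S, e, w, h1, fun i j hij => ?_⟩
    rw [hilbert_eq_DV hg, hset]
    exact h2 i j hij
  · obtain ⟨h, n, S, e, w, h1, h2⟩ := hHO ((Y.image (aff t s)).image Prod.swap)
    rw [Finset.card_image_of_injective _ Prod.swap_injective, hcard] at h1
    refine ⟨h, n, S, e, w, h1, fun i j hij => ?_⟩
    have hs : (Prod.swap ⁻¹' ((Y.image (aff t s) : Finset (ℂ × ℂ)) : Set (ℂ × ℂ))) =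
        (((Y.image (aff t s)).image Prod.swap : Finset (ℂ × ℂ)) : Set (ℂ × ℂ)) := by
      ext z
      rw [Set.mem_preimage, Finset.mem_coe, Finset.mem_coe, Finset.mem_image (f := Prod.swap)]
      constructor
      · intro hz
        exact ⟨z.swap, hz, Prod.swap_swap z⟩
      · rintro ⟨w, hw, rfl⟩
        rw [Prod.swap_swap]; exact hw
    rw [hilbert_eq_DV hg, hset, ← h2 j i hij, mul_comm, ← finrank_DV_swap, hs]

end Pool.Agent.helper87.TR
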